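import Mathlib

/-!
# MP_a6de22 : normal defect of a cyclic weighted shift and of its truncation

For `n = 4` and `a = (1, 2, 1, 1)` we have `nd(A) = 2 = ε(A) + 1` but `nd(Ã) ≤ 2 = ε(Ã)`.
-/

open Matrix

namespace Pool.Agent.Results.MP_a6de22_an.CyclicShiftDefect

/-- `Y` is a normal completion of `X` of size `m + k`. -/
def IsNormalCompletion {m k : ℕ} (X : Matrix (Fin m) (Fin m) ℂ)
    (Y : Matrix (Fin (m + k)) (Fin (m + k)) ℂ) : Prop :=
  Y * Yᴴ = Yᴴ * Y ∧ ∀ i j, Y (Fin.castAdd k i) (Fin.castAdd k j) = X i j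

/-- The normal defect: the least `k` such that `X` has a normal completion of size `m + k`. -/
noncomputable def nd {m : ℕ} (X : Matrix (Fin m) (Fin m) ℂ) : ℕ :=
  sInf {k | ∃ Y : Matrix (Fin (m + k)) (Fin (m + k)) ℂ, IsNormalCompletion X Y}

lemma comm_isHermitian {m : ℕ} (X : Matrix (Fin m) (Fin m) ℂ) :
    (X * Xᴴ - Xᴴ * X).IsHermitian := by
  simp [Matrix.IsHermitian, Matrix.conjTranspose_sub, Matrix.conjTranspose_mul]

/-- Number of positive eigenvalues (with multiplicity) of `[X, X*]`. -/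
noncomputable def iPlus {m : ℕ} (X : Matrix (Fin m) (Fin m) ℂ) : ℕ :=
  Fintype.card {i // 0 < (comm_isHermitian X).eigenvalues i}

/-- Number of negative eigenvalues (with multiplicity) of `[X, X*]`. -/
noncomputable def iMinus {m : ℕ} (X : Matrix (Fin m) (Fin m) ℂ) : ℕ :=
  Fintype.card {i // (comm_isHermitian X).eigenvalues i < 0}

/-- `ε(X) = max (i_+ [X,X*]) (i_- [X,X*])`. -/
noncomputable def eps {m : ℕ} (X : Matrix (Fin m) (Fin m) ℂ) : ℕ := max (iPlus X) (iMinus X)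

/-- The cyclic weighted shift `A`: entries `A_{k,k+1} = a_k` for `k < n` and `A_{n,1} = a_n`. -/
def cyc {n : ℕ} (a : Fin n → ℂ) : Matrix (Fin n) (Fin n) ℂ :=
  Matrix.of fun i j => if (j : ℕ) = ((i : ℕ) + 1) % n then a i else 0

/-- The truncated shift `Ã` of size `n + 1`: entries `Ã_{k,k+1} = a_k` for `1 ≤ k ≤ n`. -/
def trunc {n : ℕ} (a : Fin n → ℂ) : Matrix (Fin (n + 1)) (Fin (n + 1)) ℂ :=
  Matrix.of fun i j => if h : (i : ℕ) < n ∧ (j : ℕ) = (i : ℕ) + 1 then a ⟨i, h.1⟩ else 0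

lemma eig_multiset {n : ℕ} {M : Matrix (Fin n) (Fin n) ℂ} (hM : M.IsHermitian) (d : Fin n → ℝ)
    (h : M = Matrix.diagonal (fun i => (d i : ℂ))) :
    Multiset.map hM.eigenvalues Finset.univ.val = Multiset.map d Finset.univ.val := by
  have h1 := hM.roots_charpoly_eq_eigenvalues
  have h2 : M.charpoly.roots = Multiset.map (fun i => (d i : ℂ)) Finset.univ.val := by
    rw [h, Matrix.charpoly_diagonal, Polynomial.roots_prod]
    · simp
    · simp [Finset.prod_ne_zero_iff, Polynomial.X_sub_C_ne_zero]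
  rw [h2] at h1
  have h3 := congrArg (Multiset.map Complex.re) h1
  rw [Multiset.map_map, Multiset.map_map] at h3
  simpa [Function.comp_def] using h3.symm

lemma card_eq {n : ℕ} (f g : Fin n → ℝ)
    (h : Multiset.map f Finset.univ.val = Multiset.map g Finset.univ.val)
    (p : ℝ → Prop) [DecidablePred p] :
    Fintype.card {i // p (f i)} = Fintype.card {i // p (g i)} := by
  have key : ∀ u : Fin n → ℝ, Fintype.card {i // p (u i)}
      = Multiset.countP p (Multiset.map u Finset.univ.val) := by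
    intro u
    rw [Fintype.card_subtype, Multiset.countP_map]
    rfl
  rw [key, key, h]

/-- The weights `(1, 2, 1, 1)`. -/
def wt : Fin 4 → ℂ := ![1, 2, 1, 1]

lemma comm_cyc : cyc wt * (cyc wt)ᴴ - (cyc wt)ᴴ * cyc wt
    = Matrix.diagonal (fun i => ((![0, 3, -3, 0] : Fin 4 → ℝ) i : ℂ)) := by
  have h2 : (starRingEnd ℂ) 2 = 2 := map_ofNat _ 2
  ext i j
  fin_cases i <;> fin_cases j <;>
    simp [cyc, wt, Matrix.mul_apply, Fin.sum_univ_succ, Matrix.diagonal, h2] <;> norm_num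

lemma comm_trunc : trunc wt * (trunc wt)ᴴ - (trunc wt)ᴴ * trunc wt
    = Matrix.diagonal (fun i => ((![1, 3, -3, 0, -1] : Fin 5 → ℝ) i : ℂ)) := by
  have h2 : (starRingEnd ℂ) 2 = 2 := map_ofNat _ 2
  ext i j
  fin_cases i <;> fin_cases j <;>
    simp [trunc, wt, Matrix.mul_apply, Fin.sum_univ_succ, Matrix.diagonal, h2] <;> norm_num

lemma eps_cyc : eps (cyc wt) = 1 := by
  have h := eig_multiset (comm_isHermitian (cyc wt)) _ comm_cyc
  have h1 : iPlus (cyc wt) = 1 := by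
    rw [iPlus, card_eq _ _ h (fun x => 0 < x), Fintype.card_subtype]
    have : (Finset.univ.filter fun i : Fin 4 => 0 < (![0, 3, -3, 0] : Fin 4 → ℝ) i) = {1} := by
      ext i; fin_cases i <;> simp
    rw [this]; rfl
  have h2 : iMinus (cyc wt) = 1 := by
    rw [iMinus, card_eq _ _ h (fun x => x < 0), Fintype.card_subtype]
    have : (Finset.univ.filter fun i : Fin 4 => (![0, 3, -3, 0] : Fin 4 → ℝ) i < 0) = {2} := by
      ext i; fin_cases i <;> simp
    rw [this]; rfl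
  rw [eps, h1, h2]; rfl

lemma eps_trunc : eps (trunc wt) = 2 := by
  have h := eig_multiset (comm_isHermitian (trunc wt)) _ comm_trunc
  have h1 : iPlus (trunc wt) = 2 := by
    rw [iPlus, card_eq _ _ h (fun x => 0 < x), Fintype.card_subtype]
    have : (Finset.univ.filter fun i : Fin 5 => 0 < (![1, 3, -3, 0, -1] : Fin 5 → ℝ) i)
        = {0, 1} := by
      ext i; fin_cases i <;> simp
    rw [this]; rfl
  have h2 : iMinus (trunc wt) = 2 := by
    rw [iMinus, card_eq _ _ h (fun x => x < 0), Fintype.card_subtype]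
    have : (Finset.univ.filter fun i : Fin 5 => (![1, 3, -3, 0, -1] : Fin 5 → ℝ) i < 0)
        = {2, 4} := by
      ext i; fin_cases i <;> simp
    rw [this]; rfl
  rw [eps, h1, h2]; rfl

/-- `√3` as a complex number. -/
noncomputable def s3 : ℂ := ((Real.sqrt 3 : ℝ) : ℂ)

lemma s3_sq : s3 ^ 2 = 3 := by
  unfold s3
  rw [← Complex.ofReal_pow, Real.sq_sqrt (by norm_num)]
  norm_num

lemma s3_conj : (starRingEnd ℂ) s3 = s3 := Complex.conj_ofReal _

/-- A normal completion of `A` of size `6`. -/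
noncomputable def N6 : Matrix (Fin (4 + 2)) (Fin (4 + 2)) ℂ :=
  !![0, 1, 0, 0, -s3/2, s3/2;
     0, 0, 2, 0, 0, s3/2;
     0, 0, 0, 1, s3, s3/2;
     1, 0, 0, 0, s3/2, -s3/2;
     s3/2, s3, 0, -s3/2, 1/2, 0;
     s3/2, -s3/2, -s3/2, -s3/2, 0, 3/2]

/-- A normal completion of `Ã` of size `7`. -/
noncomputable def N7 : Matrix (Fin (5 + 2)) (Fin (5 + 2)) ℂ :=
  !![0, 1, 0, 0, 0, 0, 0;
     0, 0, 2, 0, 0, 3, 0;
     0, 0, 0, 1, 0, 0, s3;
     0, 0, 0, 0, 1, 0, 0;
     0, 0, 0, 0, 0, 2, 0;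
     1, 0, 0, 0, 0, 0, 2*s3;
     0, 2*s3, 0, 0, s3, 0, 0]

lemma N6_completion : IsNormalCompletion (cyc wt) N6 := by
  constructor
  · have h2 : (starRingEnd ℂ) 2 = 2 := map_ofNat _ 2
    have h3 : (starRingEnd ℂ) 3 = 3 := map_ofNat _ 3
    ext i j
    fin_cases i <;> fin_cases j <;>
      simp [N6, Matrix.mul_apply, Fin.sum_univ_succ, s3_conj, h2, h3] <;>
      (try ring_nf) <;> (try simp only [s3_sq]) <;> (try norm_num)
  · intro i j
    fin_cases i <;> fin_cases j <;> simp [N6, cyc, wt, Fin.castAdd, Fin.castLE]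

lemma N7_completion : IsNormalCompletion (trunc wt) N7 := by
  constructor
  · have h2 : (starRingEnd ℂ) 2 = 2 := map_ofNat _ 2
    have h3 : (starRingEnd ℂ) 3 = 3 := map_ofNat _ 3
    ext i j
    fin_cases i <;> fin_cases j <;>
      simp [N7, Matrix.mul_apply, Fin.sum_univ_succ, s3_conj, h2, h3] <;>
      (try ring_nf) <;> (try simp only [s3_sq]) <;> (try norm_num)
  · intro i j
    fin_cases i <;> fin_cases j <;> simp [N7, trunc, wt, Fin.castAdd, Fin.castLE]

lemma no_completion_zero (Y : Matrix (Fin (4 + 0)) (Fin (4 + 0)) ℂ) :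
    ¬ IsNormalCompletion (cyc wt) Y := by
  rintro ⟨hn, hX⟩
  have hY : (Y : Matrix (Fin 4) (Fin 4) ℂ) = cyc wt := by
    ext i j
    exact hX i j
  have h1 : cyc wt * (cyc wt)ᴴ = (cyc wt)ᴴ * cyc wt := by
    rw [← hY]; exact hn
  have h2 := comm_cyc
  rw [h1, sub_self] at h2
  have h3 := congrFun (congrFun h2 1) 1
  simp [Matrix.diagonal] at h3

lemma no_completion_one (Y : Matrix (Fin (4 + 1)) (Fin (4 + 1)) ℂ) :
    ¬ IsNormalCompletion (cyc wt) Y := by
  rintro ⟨hn, hX⟩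
  change Matrix (Fin 5) (Fin 5) ℂ at Y
  have e : ∀ i j : Fin 4, Y (Fin.castAdd 1 i) (Fin.castAdd 1 j) = cyc wt i j := hX
  have h2 : (starRingEnd ℂ) 2 = 2 := map_ofNat _ 2
  have e00 : Y 0 0 = 0 := (e 0 0).trans (by simp [cyc, wt])
  have e01 : Y 0 1 = 1 := (e 0 1).trans (by simp [cyc, wt])
  have e02 : Y 0 2 = 0 := (e 0 2).trans (by simp [cyc, wt])
  have e03 : Y 0 3 = 0 := (e 0 3).trans (by simp [cyc, wt])
  have e10 : Y 1 0 = 0 := (e 1 0).trans (by simp [cyc, wt])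
  have e11 : Y 1 1 = 0 := (e 1 1).trans (by simp [cyc, wt])
  have e12 : Y 1 2 = 2 := (e 1 2).trans (by simp [cyc, wt])
  have e13 : Y 1 3 = 0 := (e 1 3).trans (by simp [cyc, wt])
  have e20 : Y 2 0 = 0 := (e 2 0).trans (by simp [cyc, wt])
  have e21 : Y 2 1 = 0 := (e 2 1).trans (by simp [cyc, wt])
  have e22 : Y 2 2 = 0 := (e 2 2).trans (by simp [cyc, wt])
  have e23 : Y 2 3 = 1 := (e 2 3).trans (by simp [cyc, wt])
  have e30 : Y 3 0 = 1 := (e 3 0).trans (by simp [cyc, wt])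
  have e31 : Y 3 1 = 0 := (e 3 1).trans (by simp [cyc, wt])
  have e32 : Y 3 2 = 0 := (e 3 2).trans (by simp [cyc, wt])
  have e33 : Y 3 3 = 0 := (e 3 3).trans (by simp [cyc, wt])
  have hn' : ∀ i j : Fin 5, ∑ k, Y i k * (starRingEnd ℂ) (Y j k)
      = ∑ k, (starRingEnd ℂ) (Y k i) * Y k j := by
    intro i j
    have := congrFun (congrFun hn i) j
    simpa [Matrix.mul_apply, Matrix.conjTranspose_apply] using this
  have f00 := hn' 0 0
  have f11 := hn' 1 1
  have f01 := hn' 0 1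
  have f33 := hn' 3 3
  have f31 := hn' 3 1
  have f04 := hn' 0 4
  simp only [Fin.sum_univ_five, e00, e01, e02, e03, e10, e11, e12, e13, e20, e21, e22, e23,
    e30, e31, e32, e33, map_zero, map_one, h2, mul_zero, zero_mul, mul_one, one_mul, zero_add,
    add_zero] at f00 f11 f01 f33 f31 f04
  rw [Complex.mul_conj, mul_comm ((starRingEnd ℂ) (Y 4 0)), Complex.mul_conj] at f00
  rw [Complex.mul_conj, mul_comm ((starRingEnd ℂ) (Y 4 1)), Complex.mul_conj] at f11
  rw [Complex.mul_conj, mul_comm ((starRingEnd ℂ) (Y 4 3)), Complex.mul_conj] at f33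
  have g00 : 1 + Complex.normSq (Y 0 4) = 1 + Complex.normSq (Y 4 0) := by exact_mod_cast f00
  have g11 : 2 * 2 + Complex.normSq (Y 1 4) = 1 + Complex.normSq (Y 4 1) := by exact_mod_cast f11
  have g33 : 1 + Complex.normSq (Y 3 4) = 1 + Complex.normSq (Y 4 3) := by exact_mod_cast f33
  have g01 := congrArg Complex.normSq f01
  have g31 := congrArg Complex.normSq f31
  rw [Complex.normSq_mul, Complex.normSq_mul, Complex.normSq_conj, Complex.normSq_conj] at g01 g31
  have hc : Complex.normSq (Y 4 1) = 3 + Complex.normSq (Y 1 4) := by linarith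
  have z0 : Complex.normSq (Y 4 0) = 0 := by
    have : Complex.normSq (Y 0 4) = Complex.normSq (Y 4 0) := by linarith
    rw [this, hc] at g01
    linarith
  have z0' : Complex.normSq (Y 0 4) = 0 := by linarith
  have z3 : Complex.normSq (Y 4 3) = 0 := by
    have : Complex.normSq (Y 3 4) = Complex.normSq (Y 4 3) := by linarith
    rw [this, hc] at g31
    linarith
  have z3' : Complex.normSq (Y 3 4) = 0 := by linarith
  rw [Complex.normSq_eq_zero] at z0 z0' z3 z3'
  rw [z0, z0', z3'] at f04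
  have h5 : (starRingEnd ℂ) (Y 4 1) = 0 := by simpa using f04
  have h6 : Y 4 1 = 0 := by simpa using h5
  rw [h6, Complex.normSq_zero] at hc
  have := Complex.normSq_nonneg (Y 1 4)
  linarith

lemma nd_cyc : nd (cyc wt) = 2 := by
  apply le_antisymm
  · exact Nat.sInf_le ⟨N6, N6_completion⟩
  · refine le_csInf ⟨2, N6, N6_completion⟩ ?_
    rintro k ⟨Y, hY⟩
    by_contra hk
    have hk2 : k = 0 ∨ k = 1 := by omega
    rcases hk2 with rfl | rfl
    · exact no_completion_zero Y hY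
    · exact no_completion_one Y hY

/-- **Q1 is false.**  For `n = 4` and `a = (1, 2, 1, 1)`, `nd(A) = 2` and `ε(A) = 1`, while
`nd(Ã) ≤ 2 = ε(Ã)`; so `nd(A) = ε(A) + 1` but `nd(Ã) ≠ ε(Ã) + 1`. -/
theorem result :
    (∃ a : Fin 4 → ℂ, nd (cyc a) = 2 ∧ eps (cyc a) = 1 ∧ nd (trunc a) ≤ 2 ∧ eps (trunc a) = 2) ∧
    ¬ ∀ n : ℕ, 4 ≤ n → ∀ a : Fin n → ℂ, nd (cyc a) = eps (cyc a) + 1 →
      nd (trunc a) = eps (trunc a) + 1 := by
  have h1 : nd (trunc wt) ≤ 2 := Nat.sInf_le ⟨N7, N7_completion⟩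
  refine ⟨⟨wt, nd_cyc, eps_cyc, h1, eps_trunc⟩, fun h => ?_⟩
  have h2 := h 4 le_rfl wt (by rw [nd_cyc, eps_cyc])
  rw [eps_trunc] at h2
  omega

end Pool.Agent.Results.MP_a6de22_an.CyclicShiftDefect
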